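import Pool.Agent.N988.EA.Stm

/-!
# EA/QU: odd quantile functions (helper519)
-/

set_option autoImplicit false

open MeasureTheory Set Filter
open scoped ENNReal Topology

namespace Pool.Agent.N519.EA

open Pool.Agent.N988.EA ProbabilityTheory

section quantile

variable (μ : Measure ℝ) [IsProbabilityMeasure μ]

/-- the quantile function -/
noncomputable def qu (t : ℝ) : ℝ := sInf {x | t ≤ cdf μ x}

omit [IsProbabilityMeasure μ] in
theorem qu_le {t : ℝ} (h0 : 0 < t) (h1 : t < 1) (x : ℝ) : qu μ t ≤ x ↔ t ≤ cdf μ x := by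
  have hne : {x | t ≤ cdf μ x}.Nonempty := by
    have := (tendsto_cdf_atTop μ).eventually (eventually_gt_nhds h1)
    obtain ⟨x, hx⟩ := this.exists
    exact ⟨x, hx.le⟩
  have hbd : BddBelow {x | t ≤ cdf μ x} := by
    have := (tendsto_cdf_atBot μ).eventually (eventually_lt_nhds h0)
    obtain ⟨x, hx⟩ := this.exists
    refine ⟨x, fun y hy => ?_⟩
    by_contra hlt
    push Not at hlt
    have h2 := monotone_cdf μ hlt.le
    have h3 : t ≤ cdf μ y := hy
    linarith
  constructor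
  · intro h
    refine le_trans ?_ (monotone_cdf μ h)
    have hrc : ContinuousWithinAt (cdf μ) (Ioi (qu μ t)) (qu μ t) :=
      ((cdf μ).right_continuous (qu μ t)).mono Ioi_subset_Ici_self
    refine ge_of_tendsto hrc ?_
    filter_upwards [self_mem_nhdsWithin] with y hy
    obtain ⟨z, hz, hzy⟩ := (csInf_lt_iff hbd hne).1 (show sInf {x | t ≤ cdf μ x} < y from hy)
    exact le_trans hz (monotone_cdf μ hzy.le)
  · intro h
    exact csInf_le hbd h

/-- the quantile function, zero outside the unit interval -/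
noncomputable def qz (t : ℝ) : ℝ := if t ∈ Ioo (0 : ℝ) 1 then qu μ t else 0

theorem measurable_qz : Measurable (qz μ) := by
  refine measurable_of_Iic fun x => ?_
  have h : qz μ ⁻¹' Iic x = (Ioo (0 : ℝ) 1 ∩ Iic (cdf μ x)) ∪
      ((Ioo (0 : ℝ) 1)ᶜ ∩ {_t | (0 : ℝ) ≤ x}) := by
    ext t
    simp only [mem_preimage, mem_Iic, mem_union, mem_inter_iff, mem_compl_iff, mem_ofPred_eq]
    unfold qz
    by_cases ht : t ∈ Ioo (0 : ℝ) 1
    · rw [if_pos ht, qu_le μ ht.1 ht.2]
      simp [ht]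
    · rw [if_neg ht]
      simp [ht]
  rw [h]
  exact (measurableSet_Ioo.inter measurableSet_Iic).union
    (measurableSet_Ioo.compl.inter (MeasurableSet.const _))

theorem map_qz : (volume.restrict (Ioo (0 : ℝ) 1)).map (qz μ) = μ := by
  have : IsProbabilityMeasure (volume.restrict (Ioo (0 : ℝ) 1)) := ⟨by simp⟩
  have : IsProbabilityMeasure ((volume.restrict (Ioo (0 : ℝ) 1)).map (qz μ)) :=
    Measure.isProbabilityMeasure_map (measurable_qz μ).aemeasurable
  refine Measure.ext_of_Iic _ _ fun x => ?_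
  rw [Measure.map_apply (measurable_qz μ) measurableSet_Iic,
    Measure.restrict_apply (measurable_qz μ measurableSet_Iic), ← ofReal_cdf]
  have h : qz μ ⁻¹' Iic x ∩ Ioo 0 1 = Ioo (0 : ℝ) 1 ∩ Iic (cdf μ x) := by
    ext t
    simp only [mem_preimage, mem_Iic, mem_inter_iff]
    unfold qz
    by_cases ht : t ∈ Ioo (0 : ℝ) 1
    · rw [if_pos ht, qu_le μ ht.1 ht.2]
      simp [ht]
    · simp [ht]
  rw [h]
  have h0 := cdf_nonneg μ x
  have h1 := cdf_le_one μ x
  rcases h1.eq_or_lt with h1 | h1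
  · rw [h1]
    have : Ioo (0 : ℝ) 1 ∩ Iic 1 = Ioo 0 1 :=
      inter_eq_left.2 fun t ht => ht.2.le
    rw [this]
    simp
  · have : Ioo (0 : ℝ) 1 ∩ Iic (cdf μ x) = Ioc 0 (cdf μ x) := by
      ext t
      simp only [mem_inter_iff, mem_Ioo, mem_Iic, mem_Ioc]
      constructor
      · rintro ⟨⟨a, b⟩, c⟩
        exact ⟨a, c⟩
      · rintro ⟨a, c⟩
        exact ⟨⟨a, lt_of_le_of_lt c h1⟩, c⟩
    rw [this, Real.volume_Ioc, sub_zero]

end quantile

theorem t_QU : S_QU := by
  intro ν _ hsym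
  have hab : Measurable (fun x : ℝ => |x|) := measurable_norm
  set μ : Measure ℝ := ν.map (fun x => |x|) with hμ
  have : IsProbabilityMeasure μ := Measure.isProbabilityMeasure_map hab.aemeasurable
  have hqm := measurable_qz μ
  have hneg : ∀ x : ℝ, x < 0 → cdf μ x = 0 := by
    intro x hx
    have h1 : μ (Iic x) = 0 := by
      rw [hμ, Measure.map_apply hab measurableSet_Iic]
      have : (fun x : ℝ => |x|) ⁻¹' Iic x = ∅ := by
        ext y
        simp only [mem_preimage, mem_Iic, mem_empty_iff_false, iff_false, not_le]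
        exact lt_of_lt_of_le hx (abs_nonneg y)
      rw [this, measure_empty]
    rw [← ofReal_cdf, ENNReal.ofReal_eq_zero] at h1
    exact le_antisymm h1 (cdf_nonneg μ x)
  have hq0 : ∀ t ∈ Ioo (0 : ℝ) 1, 0 ≤ qu μ t := by
    intro t ht
    by_contra hlt
    push Not at hlt
    have h1 := (qu_le μ ht.1 ht.2 (qu μ t)).1 le_rfl
    rw [hneg _ hlt] at h1
    exact absurd h1 (not_le.2 ht.1)
  have hqmono : ∀ s ∈ Ioo (0 : ℝ) 1, ∀ t ∈ Ioo (0 : ℝ) 1, s ≤ t → qu μ s ≤ qu μ t := by
    intro s hs t ht hst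
    rw [qu_le μ hs.1 hs.2]
    exact hst.trans ((qu_le μ ht.1 ht.2 (qu μ t)).1 le_rfl)
  have hz0 : ∀ t, 0 ≤ qz μ t := by
    intro t
    unfold qz
    split_ifs with h
    · exact hq0 t h
    · exact le_rfl
  have hzneg : ∀ t, t ≤ 0 → qz μ t = 0 := by
    intro t ht
    unfold qz
    rw [if_neg]
    rintro ⟨h, -⟩
    linarith
  have hzmono : ∀ s t, s ≤ t → t < 1 → qz μ s ≤ qz μ t := by
    intro s t hst ht
    rcases le_or_gt s 0 with hs | hs
    · rw [hzneg s hs]
      exact hz0 t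
    · have h1 : s ∈ Ioo (0 : ℝ) 1 := ⟨hs, by linarith⟩
      have h2 : t ∈ Ioo (0 : ℝ) 1 := ⟨by linarith, ht⟩
      unfold qz
      rw [if_pos h1, if_pos h2]
      exact hqmono s h1 t h2 hst
  refine ⟨fun t => qz μ t - qz μ (-t), ?_, ?_, ?_, ?_⟩
  · intro s hs t ht hst
    show qz μ s - qz μ (-s) ≤ qz μ t - qz μ (-t)
    have h1 := hzmono s t hst ht.2
    have h2 := hzmono (-t) (-s) (by linarith) (by linarith [hs.1])
    linarith
  · exact hqm.sub (hqm.comp measurable_neg)
  · intro t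
    show qz μ (-t) - qz μ (- -t) = -(qz μ t - qz μ (-t))
    rw [neg_neg]
    ring
  · intro f hf
    have hG : Measurable (fun t => f (qz μ t - qz μ (-t))) :=
      hf.comp (hqm.sub (hqm.comp measurable_neg))
    have hpos : ∫⁻ t in Ioo (0 : ℝ) 1, f (qz μ t - qz μ (-t)) = ∫⁻ x, f |x| ∂ν := by
      have h1 : ∫⁻ t in Ioo (0 : ℝ) 1, f (qz μ t - qz μ (-t)) =
          ∫⁻ t in Ioo (0 : ℝ) 1, f (qz μ t) := by
        refine setLIntegral_congr_fun measurableSet_Ioo fun t ht => ?_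
        show f (qz μ t - qz μ (-t)) = f (qz μ t)
        rw [hzneg (-t) (by linarith [ht.1]), sub_zero]
      rw [h1, ← lintegral_map hf hqm, map_qz, hμ, lintegral_map hf hab]
    have hng : ∫⁻ t in Ioc (-1 : ℝ) 0, f (qz μ t - qz μ (-t)) = ∫⁻ x, f (-|x|) ∂ν := by
      have h0 : ∫⁻ t in Ioc (-1 : ℝ) 0, f (qz μ t - qz μ (-t)) =
          ∫⁻ t in Ioo (-1 : ℝ) 0, f (qz μ t - qz μ (-t)) :=
        setLIntegral_congr Ioo_ae_eq_Ioc.symm
      have h1 : ∫⁻ t in Ioo (-1 : ℝ) 0, f (qz μ t - qz μ (-t)) =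
          ∫⁻ t in Ioo (0 : ℝ) 1, f (qz μ (-t) - qz μ (- -t)) := by
        have h2 := (Measure.measurePreserving_neg (volume : Measure ℝ)).setLIntegral_comp_preimage
          (s := Ioo (-1 : ℝ) 0) measurableSet_Ioo hG
        rw [← h2]
        have h3 : Neg.neg ⁻¹' Ioo (-1 : ℝ) 0 = Ioo (0 : ℝ) 1 := by
          ext t
          simp only [mem_preimage, mem_Ioo]
          constructor
          · rintro ⟨a, b⟩
            exact ⟨by linarith, by linarith⟩
          · rintro ⟨a, b⟩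
            exact ⟨by linarith, by linarith⟩
        rw [h3]
      have h4 : ∫⁻ t in Ioo (0 : ℝ) 1, f (qz μ (-t) - qz μ (- -t)) =
          ∫⁻ t in Ioo (0 : ℝ) 1, f (-(qz μ t)) := by
        refine setLIntegral_congr_fun measurableSet_Ioo fun t ht => ?_
        show f (qz μ (-t) - qz μ (- -t)) = f (-(qz μ t))
        rw [hzneg (-t) (by linarith [ht.1]), neg_neg, zero_sub]
      have hfn : Measurable (fun x => f (-x)) := hf.comp measurable_neg
      rw [h0, h1, h4, ← lintegral_map hfn hqm, map_qz, hμ, lintegral_map hfn hab]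
    have hsplit : ∫⁻ t in Ioo (-1 : ℝ) 1, f (qz μ t - qz μ (-t)) =
        ∫⁻ x, f (-|x|) ∂ν + ∫⁻ x, f |x| ∂ν := by
      rw [← hpos, ← hng, ← Ioc_union_Ioo_eq_Ioo (show (-1 : ℝ) ≤ 0 by norm_num)
        (show (0 : ℝ) < 1 by norm_num)]
      refine lintegral_union measurableSet_Ioo ?_
      rw [Set.disjoint_left]
      intro t h1 h2
      exact absurd h1.2 (not_le.2 h2.1)
    have hsum : ∫⁻ x, f (-|x|) ∂ν + ∫⁻ x, f |x| ∂ν = ∫⁻ x, f x ∂ν + ∫⁻ x, f (-x) ∂ν := by
      have hm : Measurable (fun x : ℝ => f (-|x|)) := hf.comp (measurable_neg.comp hab)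
      rw [← lintegral_add_left hm, ← lintegral_add_left hf]
      refine lintegral_congr fun x => ?_
      rcases abs_choice x with h | h
      · rw [h]
        exact add_comm _ _
      · rw [h, neg_neg]
    have hs : ∫⁻ x, f (-x) ∂ν = ∫⁻ x, f x ∂ν := by
      rw [← lintegral_map hf measurable_neg]
      congr 1
    rw [hsplit, hsum, hs, ← two_mul, ← mul_assoc, one_div, ENNReal.inv_mul_cancel (by norm_num)
      (by norm_num), one_mul]

end Pool.Agent.N519.EA
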