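import Pool.Agent.N795.BV.Stm2

/-!
# BV/LOC1: the local theorem for the mean distance (helper519)
-/

set_option autoImplicit false

open Polynomial

namespace Pool.Agent.N795.BV

namespace Loc519

/-- the fundamental theorem of calculus (from the proof of the local theorem by helper933) -/
theorem fund {m : ℕ} {z : Fin (m + 1) → ℂ} {w : Fin m → ℂ} (hRel : Rel z w) (k : Fin (m + 1))
    {a : ℂ} (ha : a = z k) (ha0 : a ≠ 0) :
    ‖a‖ ^ (m + 1) * ‖((m : ℂ) + 1) * ∫ t in (0 : ℝ)..1, ∏ i, ((t : ℂ) - w i / a)‖ =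
      ∏ k, ‖z k‖ := by
  -- the fundamental theorem
  set P : ℂ[X] := ∏ k, (X - C (z k)) with hPdef
  have hd : ∀ t : ℝ, HasDerivAt (fun t : ℝ => P.eval ((t : ℂ) * a))
      (((m : ℂ) + 1) * a ^ (m + 1) * ∏ i, ((t : ℂ) - w i / a)) t := by
    intro t
    have h0 : HasDerivAt (fun s : ℂ => s * a) (1 * a) (t : ℂ) :=
      (hasDerivAt_id' (t : ℂ)).mul_const a
    have h00 : HasDerivAt (fun s : ℂ => P.eval s) ((derivative P).eval ((t : ℂ) * a))
        ((fun s : ℂ => s * a) (t : ℂ)) := P.hasDerivAt ((t : ℂ) * a)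
    have h1 : HasDerivAt (fun s : ℂ => P.eval (s * a)) ((derivative P).eval ((t : ℂ) * a) * (1 * a))
        (t : ℂ) := by
      have h000 := HasDerivAt.comp (h := fun s : ℂ => s * a) (h₂ := fun s : ℂ => P.eval s)
        (t : ℂ) h00 h0
      exact h000
    have h2 := h1.comp_ofReal
    have h3 : (derivative P).eval ((t : ℂ) * a) * (1 * a) =
        ((m : ℂ) + 1) * a ^ (m + 1) * ∏ i, ((t : ℂ) - w i / a) := by
      have h4 : derivative P = C ((m : ℂ) + 1) * ∏ i, (X - C (w i)) := hRel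
      rw [h4, eval_mul, eval_C, eval_prod]
      have h5 : ∀ i, eval ((t : ℂ) * a) (X - C (w i)) = a * ((t : ℂ) - w i / a) := by
        intro i
        rw [eval_sub, eval_X, eval_C]
        field_simp
      simp only [h5]
      rw [Finset.prod_mul_distrib, Finset.prod_const, Finset.card_univ, Fintype.card_fin]
      ring
    rw [h3] at h2
    exact h2
  have hint : ∫ t in (0 : ℝ)..1, ((m : ℂ) + 1) * a ^ (m + 1) * ∏ i, ((t : ℂ) - w i / a) =
      P.eval (((1 : ℝ) : ℂ) * a) - P.eval (((0 : ℝ) : ℂ) * a) := by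
    apply intervalIntegral.integral_eq_sub_of_hasDerivAt (fun t _ => hd t)
    apply Continuous.intervalIntegrable
    fun_prop
  have he1 : P.eval (((1 : ℝ) : ℂ) * a) = 0 := by
    rw [Complex.ofReal_one, one_mul, hPdef, eval_prod]
    apply Finset.prod_eq_zero (Finset.mem_univ k)
    rw [eval_sub, eval_X, eval_C, ha, sub_self]
  have he0 : ‖P.eval (((0 : ℝ) : ℂ) * a)‖ = ∏ k, ‖z k‖ := by
    rw [Complex.ofReal_zero, zero_mul, hPdef, eval_prod, norm_prod]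
    refine Finset.prod_congr rfl fun j _ => ?_
    rw [eval_sub, eval_X, eval_C, zero_sub, norm_neg]
  rw [he1, zero_sub, intervalIntegral.integral_const_mul] at hint
  have hnorm : ‖a‖ ^ (m + 1) * ‖((m : ℂ) + 1) * ∫ t in (0 : ℝ)..1, ∏ i, ((t : ℂ) - w i / a)‖ =
      ∏ k, ‖z k‖ := by
    rw [← norm_pow, ← norm_mul, ← he0, ← norm_neg (P.eval _), ← hint]
    congr 1
    ring
  exact hnorm

/-- the elementary contradiction -/
theorem contra {κ L η s B : ℝ} {n : ℕ} (hκ : 0 < κ) (hL : 0 < L) (hη : 0 < η) (hη1 : η ≤ 1)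
    (h1 : (n : ℝ) * L * η ^ 2 * (1 + κ) ≤ κ / 8) (hn : 1 ≤ n) (hs : 1 - L * η ^ 4 ≤ s)
    (hB : η / 2 ≤ B) (h : (1 + κ * B ^ 2) * s ^ n ≤ 1) : False := by
  have hn0 : (1 : ℝ) ≤ n := by exact_mod_cast hn
  have hη2 : 0 < η ^ 2 := by positivity
  have hη21 : η ^ 2 ≤ 1 := pow_le_one₀ hη.le hη1
  have hnL : 0 < (n : ℝ) * L := by positivity
  have h2 : (n : ℝ) * L * η ^ 2 ≤ 1 / 8 := by
    by_contra h3
    push Not at h3
    have h4 : 1 / 8 * (1 + κ) < (n : ℝ) * L * η ^ 2 * (1 + κ) :=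
      mul_lt_mul_of_pos_right h3 (by linarith)
    linarith
  have h3 : (n : ℝ) * (L * η ^ 4) ≤ 1 / 8 := by
    have e : (n : ℝ) * (L * η ^ 4) = ((n : ℝ) * L * η ^ 2) * η ^ 2 := by ring
    rw [e]
    have h4 : ((n : ℝ) * L * η ^ 2) * η ^ 2 ≤ ((n : ℝ) * L * η ^ 2) * 1 :=
      mul_le_mul_of_nonneg_left hη21 (by positivity)
    linarith
  have hq0 : 0 ≤ L * η ^ 4 := by positivity
  have hq1 : L * η ^ 4 ≤ 1 / 8 := by nlinarith
  have h4 : 1 + (n : ℝ) * (-(L * η ^ 4)) ≤ (1 + -(L * η ^ 4)) ^ n :=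
    one_add_mul_le_pow (by linarith) n
  have h5 : (1 + -(L * η ^ 4)) ^ n ≤ s ^ n := pow_le_pow_left₀ (by linarith) (by linarith) n
  have h6 : 1 - (n : ℝ) * (L * η ^ 4) ≤ s ^ n := by linarith
  have hB2 : η ^ 2 / 4 ≤ B ^ 2 := by
    have : (η / 2) ^ 2 ≤ B ^ 2 := pow_le_pow_left₀ (by linarith) hB 2
    linarith [this, show (η / 2) ^ 2 = η ^ 2 / 4 by ring]
  have h7 : (1 + κ * (η ^ 2 / 4)) * (1 - (n : ℝ) * (L * η ^ 4)) ≤ 1 := by
    refine le_trans ?_ h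
    refine mul_le_mul ?_ h6 (by linarith) (by positivity)
    have := mul_le_mul_of_nonneg_left hB2 hκ.le
    linarith
  have e : (1 + κ * (η ^ 2 / 4)) * (1 - (n : ℝ) * (L * η ^ 4)) - 1 =
      η ^ 2 * (κ / 4 - (n : ℝ) * L * η ^ 2 * (1 + κ * (η ^ 2 / 4))) := by ring
  have h8 : 0 < κ / 4 - (n : ℝ) * L * η ^ 2 * (1 + κ * (η ^ 2 / 4)) := by
    have h9 : (n : ℝ) * L * η ^ 2 * (1 + κ * (η ^ 2 / 4)) ≤ (n : ℝ) * L * η ^ 2 * (1 + κ) := by
      refine mul_le_mul_of_nonneg_left ?_ (by positivity)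
      have : κ * (η ^ 2 / 4) ≤ κ * 1 := mul_le_mul_of_nonneg_left (by linarith) hκ.le
      linarith
    linarith
  have h10 := mul_pos hη2 h8
  linarith

end Loc519

open Loc519 in
theorem loc1 (_hA : S_PHIA) (hQ : S_PHIQ) (hS : S_SUMW) (hZ : S_ZER) (hW : S_POW) (hG : S_SIG) :
    S_LOC1 := by
  intro m hm
  obtain ⟨εQ, κ, hεQ, hκ, hQ'⟩ := hQ m hm
  obtain ⟨εZ, K, hεZ, hK, hZ'⟩ := hZ m hm
  have hm0 : (2 : ℝ) ≤ m := by exact_mod_cast hm
  obtain ⟨εG, L, hεG, hL, hG'⟩ := hG m hm (K + ((m : ℝ) + 1) * m) (by positivity)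
  -- the choice of `ε`
  obtain ⟨δ, hδ0, hδ1, hδK, hδL⟩ : ∃ δ : ℝ, 0 < δ ∧ δ ≤ 1 ∧ K * δ ^ 2 ≤ 1 / 2 ∧
      ((m + 1 : ℕ) : ℝ) * L * δ ^ 2 * (1 + κ) ≤ κ / 8 := by
    have hA : 0 < ((m + 1 : ℕ) : ℝ) * L * (1 + κ) := by positivity
    refine ⟨min 1 (min (1 / (2 * K)) (κ / (8 * (((m + 1 : ℕ) : ℝ) * L * (1 + κ))))),
      by positivity, min_le_left _ _, ?_, ?_⟩
    · set δ := min 1 (min (1 / (2 * K)) (κ / (8 * (((m + 1 : ℕ) : ℝ) * L * (1 + κ))))) with hδ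
      have h0 : 0 < δ := by positivity
      have h1 : δ ≤ 1 := min_le_left _ _
      have h2 : δ ≤ 1 / (2 * K) := (min_le_right _ _).trans (min_le_left _ _)
      have h3 : δ ^ 2 ≤ δ := by nlinarith
      calc K * δ ^ 2 ≤ K * (1 / (2 * K)) := mul_le_mul_of_nonneg_left (h3.trans h2) hK.le
        _ = 1 / 2 := by field_simp
    · set δ := min 1 (min (1 / (2 * K)) (κ / (8 * (((m + 1 : ℕ) : ℝ) * L * (1 + κ))))) with hδ
      have h0 : 0 < δ := by positivity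
      have h1 : δ ≤ 1 := min_le_left _ _
      have h2 : δ ≤ κ / (8 * (((m + 1 : ℕ) : ℝ) * L * (1 + κ))) :=
        (min_le_right _ _).trans (min_le_right _ _)
      have h3 : δ ^ 2 ≤ δ := by nlinarith
      calc ((m + 1 : ℕ) : ℝ) * L * δ ^ 2 * (1 + κ) =
            (((m + 1 : ℕ) : ℝ) * L * (1 + κ)) * δ ^ 2 := by ring
        _ ≤ (((m + 1 : ℕ) : ℝ) * L * (1 + κ)) *
            (κ / (8 * (((m + 1 : ℕ) : ℝ) * L * (1 + κ)))) :=
            mul_le_mul_of_nonneg_left (h3.trans h2) hA.le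
        _ = κ / 8 := by field_simp
  refine ⟨min δ (min (εQ / 2) (min εZ εG)), by positivity, ?_⟩
  intro z w hRel hz0 hz1 hw k c s hs hsum hk
  by_contra hcon
  push Not at hcon
  obtain ⟨i₁, hi₁⟩ := hcon
  obtain ⟨i₀, -, hmax⟩ := Finset.exists_max_image Finset.univ (fun i => ‖w i‖)
    ⟨i₁, Finset.mem_univ i₁⟩
  obtain ⟨η, hη⟩ : ∃ η : ℝ, η = ‖w i₀‖ := ⟨_, rfl⟩
  have hwη : ∀ i, ‖w i‖ ≤ η := fun i => by
    rw [hη]
    exact hmax i (Finset.mem_univ i)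
  have hη0 : 0 < η := lt_of_lt_of_le (norm_pos_iff.2 hi₁) (hwη i₁)
  have hηε : η ≤ min δ (min (εQ / 2) (min εZ εG)) := by
    rw [hη]
    exact hw i₀
  have hηδ : η ≤ δ := hηε.trans (min_le_left _ _)
  have hηQ : η ≤ εQ / 2 := hηε.trans ((min_le_right _ _).trans (min_le_left _ _))
  have hηZ : η ≤ εZ := hηε.trans ((min_le_right _ _).trans ((min_le_right _ _).trans
    (min_le_left _ _)))
  have hηG : η ≤ εG := hηε.trans ((min_le_right _ _).trans ((min_le_right _ _).trans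
    (min_le_right _ _)))
  have hη2 : η ^ 2 ≤ δ ^ 2 := pow_le_pow_left₀ hη0.le hηδ 2
  have hz := hZ' z w η hRel hz0 hηZ hwη hz1
  -- the sum of the squares
  have hsq : ‖∑ k, (z k) ^ 2‖ ≤ (K + ((m : ℝ) + 1) * m) * η ^ 2 := by
    have h1 := congrArg norm (hW m z w hm hRel hz0)
    rw [norm_mul, norm_mul] at h1
    have h2 : ‖(m : ℂ) - 1‖ = (m : ℝ) - 1 := by
      have e : (m : ℂ) - 1 = (((m : ℝ) - 1 : ℝ) : ℂ) := by push_cast; ring
      rw [e, Complex.norm_real, Real.norm_of_nonneg (by linarith)]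
    have h3 : ‖(m : ℂ) + 1‖ = (m : ℝ) + 1 := by
      have e : (m : ℂ) + 1 = (((m : ℝ) + 1 : ℝ) : ℂ) := by push_cast; ring
      rw [e, Complex.norm_real, Real.norm_of_nonneg (by linarith)]
    have h4 : ‖∑ i, (w i) ^ 2‖ ≤ m * η ^ 2 := by
      refine (norm_sum_le _ _).trans ?_
      have h5 : ∑ i : Fin m, ‖(w i) ^ 2‖ ≤ ∑ _i : Fin m, η ^ 2 := by
        refine Finset.sum_le_sum fun i _ => ?_
        rw [norm_pow]
        exact pow_le_pow_left₀ (norm_nonneg _) (hwη i) 2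
      refine h5.trans (le_of_eq ?_)
      rw [Finset.sum_const, Finset.card_univ, Fintype.card_fin, nsmul_eq_mul]
    rw [h2, h3] at h1
    have h5 : ‖∑ k, (z k) ^ 2‖ ≤ ((m : ℝ) - 1) * ‖∑ k, (z k) ^ 2‖ := by
      have := norm_nonneg (∑ k, (z k) ^ 2)
      nlinarith
    have h6 : ((m : ℝ) + 1) * ‖∑ i, (w i) ^ 2‖ ≤ ((m : ℝ) + 1) * (m * η ^ 2) :=
      mul_le_mul_of_nonneg_left h4 (by linarith)
    have h7 : 0 ≤ K * η ^ 2 := by positivity
    nlinarith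
  have hz' : ∀ k, |‖z k‖ - 1| ≤ (K + ((m : ℝ) + 1) * m) * η ^ 2 := by
    intro k
    refine (hz k).trans (mul_le_mul_of_nonneg_right ?_ (by positivity))
    have : 0 ≤ ((m : ℝ) + 1) * m := by positivity
    linarith
  have hlow := hG' z η hη0.le hηG hz0 hsq hz' hz1 c
  have hs1 : 1 - L * η ^ 4 ≤ s := by
    have h1 : ((m : ℝ) + 1) * (1 - L * η ^ 4) ≤ ((m : ℝ) + 1) * s := hlow.trans hsum
    exact le_of_mul_le_mul_left h1 (by linarith)
  -- the zero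
  obtain ⟨a, ha⟩ : ∃ a : ℂ, a = z k := ⟨_, rfl⟩
  have haK : |‖a‖ - 1| ≤ 1 / 2 := by
    rw [ha]
    refine (hz k).trans ?_
    have := mul_le_mul_of_nonneg_left hη2 hK.le
    linarith
  obtain ⟨ha1, ha2⟩ := abs_le.1 haK
  have hr0 : 0 < ‖a‖ := by linarith
  have ha0 : a ≠ 0 := norm_pos_iff.1 hr0
  have hm1 : ((m : ℂ) + 1) ≠ 0 := by
    have : ((m : ℂ) + 1) = ((m + 1 : ℕ) : ℂ) := by push_cast; ring
    rw [this]
    exact Nat.cast_ne_zero.2 (Nat.succ_ne_zero m)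
  have hsw : ∑ i, w i = 0 := by
    have h1 := hS m z w hRel
    rw [hz0, mul_zero] at h1
    exact (mul_eq_zero.1 h1).resolve_left hm1
  have hphi := hQ' (fun i => w i / a) (η / ‖a‖) (by
      rw [div_le_iff₀ hr0]
      nlinarith) (by
      intro i
      rw [norm_div]
      exact div_le_div_of_nonneg_right (hwη i) hr0.le) ⟨i₀, by rw [norm_div, hη]⟩
    (by rw [← Finset.sum_div, hsw, zero_div]) (‖a‖ / s) (by positivity) (by
      intro i
      rw [div_mul_eq_mul_div, one_le_div hs, ← norm_mul]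
      have h1 : a * (1 - w i / a) = -(w i - a) := by field_simp; ring
      rw [h1, norm_neg, ha]
      exact hk i)
  have hf := fund hRel k ha ha0
  rw [hz1] at hf
  have hsp : 0 < s ^ (m + 1) := by positivity
  rw [div_pow ‖a‖ s, div_mul_eq_mul_div, hf, le_div_iff₀ hsp] at hphi
  refine contra (κ := κ) (L := L) (η := η) (s := s) (B := η / ‖a‖) (n := m + 1) hκ hL hη0
    (hηδ.trans hδ1) ?_ (by omega) hs1 ?_ hphi
  · refine le_trans ?_ hδL
    refine mul_le_mul_of_nonneg_right ?_ (by linarith)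
    exact mul_le_mul_of_nonneg_left hη2 (by positivity)
  · rw [div_le_div_iff₀ (by norm_num) hr0]
    nlinarith

end Pool.Agent.N795.BV
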