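import Pool.Agent.N646.BX.Stm

/-!
Project BX (helper646), task KK: from two sets to `k + 1` sets by induction on `k`.
-/

set_option autoImplicit false

namespace Pool.Agent.N519.BXKK

open Finset Pool.Agent.N646.BX

/-- a window of `w` consecutive integers contains at least `β w` elements -/
theorem window {m w : ℕ} {β : ℝ} {X : Finset ℤ} {L : ℕ} (hm : 1 ≤ m) (h : Equi m w β X L) (u : ℤ)
    (hu : 0 ≤ u) (huw : u + w ≤ L) :
    β * w ≤ ((X.filter (fun x => u ≤ x ∧ x < u + w)).card : ℝ) := by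
  have key : (X.filter (fun x => u ≤ x ∧ x < u + w)).card =
      ∑ a ∈ range m, (X.filter (fun x => u ≤ x ∧ x < u + w ∧ x ≡ (a : ℤ) [ZMOD m])).card := by
    have hm0 : (0 : ℤ) < m := by exact_mod_cast hm
    rw [Finset.card_eq_sum_card_fiberwise (f := fun x : ℤ => (x % (m : ℤ)).toNat) (t := range m)]
    · refine Finset.sum_congr rfl fun a ha => ?_
      congr 1
      ext x
      have ha' : a < m := Finset.mem_range.1 ha
      have h1 := Int.emod_nonneg x hm0.ne'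
      have h2 := Int.emod_lt_of_pos x hm0
      have h3 : (a : ℤ) % (m : ℤ) = a := Int.emod_eq_of_lt (by positivity) (by exact_mod_cast ha')
      simp only [Finset.mem_filter, Int.ModEq, h3]
      constructor
      · rintro ⟨⟨hx, h4, h5⟩, h6⟩
        exact ⟨hx, h4, h5, by omega⟩
      · rintro ⟨hx, h4, h5, h6⟩
        exact ⟨⟨hx, h4, h5⟩, by omega⟩
    · intro x _
      have h1 := Int.emod_nonneg x hm0.ne'
      have h2 := Int.emod_lt_of_pos x hm0
      simp only [Finset.coe_range, Set.mem_Iio]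
      omega
  have hmR : (0 : ℝ) < m := by exact_mod_cast hm
  have h2 : (m : ℝ) * (β * w) ≤ m * ((X.filter (fun x => u ≤ x ∧ x < u + w)).card : ℝ) := by
    rw [key, Nat.cast_sum, Finset.mul_sum]
    calc (m : ℝ) * (β * w) = ∑ _a ∈ range m, (β * w) := by
          rw [Finset.sum_const, Finset.card_range, nsmul_eq_mul]
      _ ≤ _ := Finset.sum_le_sum fun a _ => h u a hu huw
  exact le_of_mul_le_mul_left h2 hmR

/-- tiling by windows -/
theorem tile {m w : ℕ} {β : ℝ} {X : Finset ℤ} {L : ℕ} (hm : 1 ≤ m) (h : Equi m w β X L) (u : ℤ)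
    (hu : 0 ≤ u) : ∀ n : ℕ, u + n * w ≤ L →
    β * (n * w) ≤ ((X.filter (fun x => u ≤ x ∧ x < u + n * w)).card : ℝ) := by
  intro n
  induction n with
  | zero => intro _; simp
  | succ n ih =>
    intro hL
    push_cast at hL
    have hw0 : (0 : ℤ) ≤ w := by positivity
    have h1 := ih (by nlinarith)
    have h2 := window hm h (u + n * w) (by positivity) (by nlinarith)
    have h3 : (X.filter (fun x => u ≤ x ∧ x < u + n * w)).card +
        (X.filter (fun x => u + n * w ≤ x ∧ x < u + n * w + w)).card ≤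
        (X.filter (fun x => u ≤ x ∧ x < u + ((n + 1 : ℕ) : ℤ) * w)).card := by
      rw [← Finset.card_union_of_disjoint]
      · apply Finset.card_le_card
        intro x hx
        have hnw : (0 : ℤ) ≤ n * w := by positivity
        simp only [Finset.mem_union, Finset.mem_filter] at hx ⊢
        push_cast
        rcases hx with ⟨hx, h4, h5⟩ | ⟨hx, h4, h5⟩
        · exact ⟨hx, h4, by nlinarith⟩
        · exact ⟨hx, by linarith, by nlinarith⟩
      · rw [Finset.disjoint_left]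
        intro x hx hx'
        simp only [Finset.mem_filter] at hx hx'
        linarith [hx.2.2, hx'.2.1]
    have h4 : ((X.filter (fun x => u ≤ x ∧ x < u + n * w)).card : ℝ) +
        ((X.filter (fun x => u + n * w ≤ x ∧ x < u + n * w + w)).card : ℝ) ≤
        ((X.filter (fun x => u ≤ x ∧ x < u + ((n + 1 : ℕ) : ℤ) * w)).card : ℝ) := by
      exact_mod_cast h3
    push_cast at h4 h2 ⊢
    linarith [h1, h2, h4]

/-- a long interval -/
theorem interval {m w : ℕ} {β : ℝ} {X : Finset ℤ} {L T : ℕ} (hβ : 0 ≤ β) (hm : 1 ≤ m) (hw : 1 ≤ w)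
    (h : Equi m w β X L) (y : ℤ) (hy : 0 ≤ y) (hyT : y + T ≤ L) :
    β * ((T : ℝ) - w) ≤ (((Ico 0 (T : ℤ)).filter (fun t => y + t ∈ X)).card : ℝ) := by
  have h0 : T / w * w ≤ T := Nat.div_mul_le_self T w
  have h0' : ((T / w : ℕ) : ℤ) * w ≤ T := by exact_mod_cast h0
  have h1 := tile hm h y hy (T / w) (by linarith)
  have h2 : (X.filter (fun x => y ≤ x ∧ x < y + ((T / w : ℕ) : ℤ) * w)).card ≤
      ((Ico 0 (T : ℤ)).filter (fun t => y + t ∈ X)).card := by
    apply Finset.card_le_card_of_injOn (fun x => x - y)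
    · intro x hx
      simp only [Finset.coe_filter, Set.mem_ofPred_eq, Finset.mem_Ico] at hx ⊢
      refine ⟨⟨by linarith, by linarith⟩, ?_⟩
      rw [add_sub_cancel]
      exact hx.1
    · intro a _ b _ hab
      simpa using hab
  have h3 : T < T / w * w + w := Nat.lt_div_mul_add (by omega)
  have h4 : (T : ℝ) - w ≤ ((T / w : ℕ) : ℝ) * w := by
    have : (T : ℝ) < ((T / w : ℕ) : ℝ) * w + w := by exact_mod_cast h3
    linarith
  calc β * ((T : ℝ) - w) ≤ β * (((T / w : ℕ) : ℝ) * w) := mul_le_mul_of_nonneg_left h4 hβ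
    _ ≤ _ := h1
    _ ≤ _ := by exact_mod_cast h2

/-- the total number of representations -/
theorem total {m w : ℕ} {β : ℝ} {X Y : Finset ℤ} {L T : ℕ} (hβ : 0 ≤ β) (hm : 1 ≤ m) (hw : 1 ≤ w)
    (h : Equi m w β X L) (hY : Y ⊆ Ico 0 ((L : ℤ) - 2 * T)) :
    (Y.card : ℝ) * (β * ((T : ℝ) - w)) ≤ ∑ t ∈ Ico 0 (T : ℤ), (rep X Y t : ℝ) := by
  have h1 : ∑ t ∈ Ico 0 (T : ℤ), rep X Y t =
      ∑ y ∈ Y, ((Ico 0 (T : ℤ)).filter (fun t => y + t ∈ X)).card := by
    simp only [rep, Finset.card_filter]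
    exact Finset.sum_comm
  have h2 : ∑ t ∈ Ico 0 (T : ℤ), (rep X Y t : ℝ) =
      ∑ y ∈ Y, (((Ico 0 (T : ℤ)).filter (fun t => y + t ∈ X)).card : ℝ) := by
    exact_mod_cast h1
  rw [h2, ← nsmul_eq_mul]
  apply Finset.card_nsmul_le_sum
  intro y hy
  have := Finset.mem_Ico.1 (hY hy)
  exact interval hβ hm hw h y this.1 (by linarith)

/-- splitting off the first coordinate of `repV` -/
theorem repV_cons {k : ℕ} (X : Fin (k + 1) → Finset ℤ) (Y : Finset ℤ) (a : ℤ) (h : Fin k → ℤ) :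
    repV X Y (Fin.cons a h) = repV (fun j => X j.succ) (Y.filter (fun y => y + a ∈ X 0)) h := by
  unfold repV
  rw [Finset.filter_filter]
  congr 1
  ext y
  simp [Fin.forall_fin_succ]

/-- splitting the count -/
theorem split {k : ℕ} (X : Fin (k + 1) → Finset ℤ) (Y : Finset ℤ) (T : ℕ) (c : ℝ)
    (H : Finset ℤ) (hH : H ⊆ Ico 0 (T : ℤ)) :
    ∑ a ∈ H, ((Fintype.piFinset (fun _ : Fin k => Ico 0 (T : ℤ))).filter
        (fun h => c ≤ (repV (fun j => X j.succ) (Y.filter (fun y => y + a ∈ X 0)) h : ℝ))).card ≤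
      ((Fintype.piFinset (fun _ : Fin (k + 1) => Ico 0 (T : ℤ))).filter
        (fun h => c ≤ (repV X Y h : ℝ))).card := by
  classical
  rw [← Finset.card_sigma]
  apply Finset.card_le_card_of_injOn (fun p : (Σ _ : ℤ, Fin k → ℤ) => (Fin.cons p.1 p.2 : Fin (k + 1) → ℤ))
  · rintro ⟨a, h⟩ hp
    simp only [Finset.coe_sigma, Set.mem_sigma_iff, Finset.mem_coe, Finset.mem_filter,
      Fintype.mem_piFinset] at hp ⊢
    obtain ⟨ha, hh, hc⟩ := hp
    refine ⟨?_, ?_⟩
    · intro j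
      refine Fin.cases ?_ (fun j => ?_) j
      · exact hH ha
      · exact hh j
    · rw [repV_cons]
      exact hc
  · rintro ⟨a, h⟩ _ ⟨b, g⟩ _ hab
    have h1 := Fin.cons_injective2 hab
    obtain ⟨h1, h2⟩ := h1
    subst h1
    subst h2
    rfl

theorem zero : S_KK 0 := by
  intro β ε c₁ τ hβ hβ2 hε hc₁ hτ
  refine ⟨1, le_rfl, 1, c₁, one_pos, hc₁, 0, ?_⟩
  intro L T _ _ _ m w _ _ _ _ X Y _ _ hY _ _
  have h1 : (Fintype.piFinset (fun _ : Fin 0 => Ico 0 (T : ℤ))).filter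
        (fun h => c₁ * L ≤ (repV X Y h : ℝ)) = Fintype.piFinset (fun _ : Fin 0 => Ico 0 (T : ℤ)) := by
    apply Finset.filter_true_of_mem
    intro h _
    have : repV X Y h = Y.card := by
      unfold repV
      rw [Finset.filter_true_of_mem]
      intro y _ j
      exact j.elim0
    rw [this]
    exact hY
  rw [h1]
  simp
  exact hε.le

theorem step (hK2 : S_K2) (k : ℕ) (ih : S_KK k) : S_KK (k + 1) := by
  intro β ε₀ c₁ τ hβ hβ2 hε₀ hc₁ hτ
  -- WLOG `ε ≤ 1`
  obtain ⟨ε, hε, hε1, hεε⟩ : ∃ ε : ℝ, 0 < ε ∧ ε ≤ 1 ∧ ε ≤ ε₀ :=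
    ⟨min ε₀ 1, lt_min hε₀ one_pos, min_le_right _ _, min_le_left _ _⟩
  obtain ⟨m', hm', ω', c', hω', hc', n', H'⟩ := hK2 β (ε / 8) c₁ τ hβ (by linarith) (by positivity) hc₁ hτ
  have hk1 : (0 : ℝ) < 8 * (k + 1) := by positivity
  obtain ⟨c, hc, hcc', hcε⟩ : ∃ c : ℝ, 0 < c ∧ c ≤ c' ∧ c ≤ ε / (8 * (k + 1)) :=
    ⟨min c' (ε / (8 * (k + 1))), lt_min hc' (by positivity), min_le_left _ _, min_le_right _ _⟩
  obtain ⟨m'', hm'', ω'', c'', hω'', hc'', n'', H''⟩ :=
    ih β (ε / 8) c τ hβ hβ2 (by positivity) hc hτ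
  refine ⟨m' * m'', Nat.one_le_iff_ne_zero.2 (by positivity), min (min ω' ω'') (ε * τ / 8), c'',
    lt_min (lt_min hω' hω'') (by positivity), hc'', max (max n' n'') 1, ?_⟩
  intro L T hL hTL hTL2 m w hm hmm hw hwL X Y hX hY hYc hYβ hE
  have hL1 : n' ≤ L := le_trans (le_trans (le_max_left _ _) (le_max_left _ _)) hL
  have hL2 : n'' ≤ L := le_trans (le_trans (le_max_right _ _) (le_max_left _ _)) hL
  have hL3 : 1 ≤ L := le_trans (le_max_right _ _) hL
  have hLR : (0 : ℝ) < L := by exact_mod_cast hL3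
  have hTR : (0 : ℝ) < T := lt_of_lt_of_le (by positivity) hTL
  have hw1 : (w : ℝ) ≤ ω' * L := hwL.trans
    (mul_le_mul_of_nonneg_right ((min_le_left _ _).trans (min_le_left _ _)) hLR.le)
  have hw2 : (w : ℝ) ≤ ω'' * L := hwL.trans
    (mul_le_mul_of_nonneg_right ((min_le_left _ _).trans (min_le_right _ _)) hLR.le)
  have hw3 : (w : ℝ) ≤ ε / 8 * T := by
    have h1 : (w : ℝ) ≤ ε * τ / 8 * L := hwL.trans
      (mul_le_mul_of_nonneg_right (min_le_right _ _) hLR.le)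
    have h2 : ε / 8 * (τ * L) ≤ ε / 8 * T := mul_le_mul_of_nonneg_left hTL (by positivity)
    linarith
  have hA := H' L T hL1 hTL hTL2 m w hm (Dvd.dvd.trans (Dvd.intro _ rfl) hmm) hw hw1 (X 0) Y (hX 0) hY
    hYc (hE 0)
  set y : ℝ := (Y.card : ℝ) / L with hy
  have hy0 : 0 ≤ y := by positivity
  have hyβ : y ≤ β := by
    rw [hy, div_le_iff₀ hLR]
    exact hYβ
  rw [min_eq_right (by linarith)] at hA
  set H : Finset ℤ := (Ico 0 (T : ℤ)).filter (fun h => c * L ≤ (rep (X 0) Y h : ℝ)) with hH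
  have hHT : H ⊆ Ico 0 (T : ℤ) := Finset.filter_subset _ _
  have hHc : (y + β - ε / 8) * T ≤ (H.card : ℝ) := by
    refine hA.trans ?_
    have : ((Ico 0 (T : ℤ)).filter (fun h => c' * L ≤ (rep (X 0) Y h : ℝ))).card ≤ H.card := by
      apply Finset.card_le_card
      intro h hh
      simp only [hH, Finset.mem_filter] at hh ⊢
      exact ⟨hh.1, (mul_le_mul_of_nonneg_right hcc' hLR.le).trans hh.2⟩
    exact_mod_cast this
  have hHcT : (H.card : ℝ) ≤ T := by
    have := Finset.card_le_card hHT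
    rw [Int.card_Ico] at this
    have h2 : H.card ≤ T := by simpa using this
    exact_mod_cast h2
  -- the sum over `H`
  have hsum : y * (β * ((1 - ε / 8) * T)) - c * T ≤ ∑ a ∈ H, (rep (X 0) Y a : ℝ) / L := by
    have h1 := total hβ.le hm hw (hE 0) hY
    have h2 : ∑ t ∈ Ico 0 (T : ℤ), (rep (X 0) Y t : ℝ) ≤ ∑ t ∈ H, (rep (X 0) Y t : ℝ) + c * L * T := by
      rw [← Finset.sum_filter_add_sum_filter_not (Ico 0 (T : ℤ))
        (fun h => c * L ≤ (rep (X 0) Y h : ℝ))]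
      have h3 : ∑ t ∈ (Ico 0 (T : ℤ)).filter (fun h => ¬ c * L ≤ (rep (X 0) Y h : ℝ)),
          (rep (X 0) Y t : ℝ) ≤ c * L * T := by
        have h4 : ∑ t ∈ (Ico 0 (T : ℤ)).filter (fun h => ¬ c * L ≤ (rep (X 0) Y h : ℝ)),
            (rep (X 0) Y t : ℝ) ≤ ((Ico 0 (T : ℤ)).filter
              (fun h => ¬ c * L ≤ (rep (X 0) Y h : ℝ))).card • (c * L) := by
          apply Finset.sum_le_card_nsmul
          intro t ht
          exact (not_le.1 (Finset.mem_filter.1 ht).2).le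
        refine h4.trans ?_
        rw [nsmul_eq_mul, mul_comm]
        apply mul_le_mul_of_nonneg_left _ (by positivity)
        have h5 := Finset.card_le_card (Finset.filter_subset
          (fun h => ¬ c * L ≤ (rep (X 0) Y h : ℝ)) (Ico 0 (T : ℤ)))
        rw [Int.card_Ico] at h5
        have h6 : ((Ico 0 (T : ℤ)).filter (fun h => ¬ c * L ≤ (rep (X 0) Y h : ℝ))).card ≤ T := by
          simpa using h5
        exact_mod_cast h6
      linarith
    rw [← Finset.sum_div, le_div_iff₀ hLR]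
    have h4 : (1 - ε / 8) * T ≤ (T : ℝ) - w := by linarith
    have h5 : (Y.card : ℝ) = y * L := by
      rw [hy]; field_simp
    rw [h5] at h1
    have h6 : y * L * (β * ((1 - ε / 8) * T)) ≤ y * L * (β * ((T : ℝ) - w)) :=
      mul_le_mul_of_nonneg_left (mul_le_mul_of_nonneg_left h4 hβ.le) (mul_nonneg hy0 hLR.le)
    have h7 : (y * (β * ((1 - ε / 8) * T)) - c * T) * L =
        y * L * (β * ((1 - ε / 8) * T)) - c * L * T := by ring
    rw [h7]
    linarith [h1, h2, h6]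
  -- the induction hypothesis
  have hIH : ∀ a ∈ H, (β ^ k + k * β ^ (k - 1) * ((rep (X 0) Y a : ℝ) / L) - ε / 8) * (T : ℝ) ^ k ≤
      (((Fintype.piFinset (fun _ : Fin k => Ico 0 (T : ℤ))).filter
        (fun h => c'' * L ≤ (repV (fun j => X j.succ) (Y.filter (fun y => y + a ∈ X 0)) h : ℝ))).card :
          ℝ) := by
    intro a ha
    have ha2 := (Finset.mem_filter.1 ha).2
    refine H'' L T hL2 hTL hTL2 m w hm (Dvd.dvd.trans (Dvd.intro_left _ rfl) hmm) hw hw2
      (fun j => X j.succ) (Y.filter (fun y => y + a ∈ X 0)) (fun j => hX j.succ)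
      ((Finset.filter_subset _ _).trans hY) ha2 ?_ (fun j => hE j.succ)
    refine le_trans ?_ hYβ
    exact_mod_cast Finset.card_le_card (Finset.filter_subset _ _)
  have hmain : ∑ a ∈ H, (β ^ k + k * β ^ (k - 1) * ((rep (X 0) Y a : ℝ) / L) - ε / 8) * (T : ℝ) ^ k ≤
      (((Fintype.piFinset (fun _ : Fin (k + 1) => Ico 0 (T : ℤ))).filter
        (fun h => c'' * L ≤ (repV X Y h : ℝ))).card : ℝ) := by
    refine (Finset.sum_le_sum hIH).trans ?_
    exact_mod_cast split X Y T (c'' * L) H hHT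
  refine le_trans ?_ hmain
  rw [← Finset.sum_mul, pow_succ (T : ℝ) k]
  have hTk : (0 : ℝ) < (T : ℝ) ^ k := by positivity
  have hexp : ∑ a ∈ H, (β ^ k + k * β ^ (k - 1) * ((rep (X 0) Y a : ℝ) / L) - ε / 8) =
      H.card * (β ^ k - ε / 8) + k * β ^ (k - 1) * ∑ a ∈ H, (rep (X 0) Y a : ℝ) / L := by
    rw [Finset.mul_sum]
    rw [show (H.card : ℝ) * (β ^ k - ε / 8) = ∑ _a ∈ H, (β ^ k - ε / 8) by
      rw [Finset.sum_const, nsmul_eq_mul]]
    rw [← Finset.sum_add_distrib]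
    apply Finset.sum_congr rfl
    intro a _
    ring
  rw [hexp]
  have hβk0 : 0 ≤ β ^ k := by positivity
  have hβk1 : β ^ k ≤ 1 := pow_le_one₀ hβ.le (by linarith)
  have hβk1' : β ^ (k - 1) ≤ 1 := pow_le_one₀ hβ.le (by linarith)
  have hB : (k : ℝ) * β ^ (k - 1) * β = k * β ^ k := by
    rcases Nat.eq_zero_or_pos k with h0 | h0
    · subst h0; simp
    · obtain ⟨j, rfl⟩ : ∃ j, k = j + 1 := ⟨k - 1, by omega⟩
      rw [Nat.add_sub_cancel, pow_succ]
      ring
  have hkβ : (k : ℝ) * β ^ k ≤ 1 := by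
    have h1 : β ^ k ≤ (1 / 2) ^ k := pow_le_pow_left₀ hβ.le hβ2 k
    have h2 : (k : ℝ) ≤ 2 ^ k := by exact_mod_cast (Nat.lt_two_pow_self).le
    have h3 : (2 : ℝ) ^ k * (1 / 2) ^ k = 1 := by
      rw [← mul_pow]; norm_num
    calc (k : ℝ) * β ^ k ≤ 2 ^ k * (1 / 2) ^ k := by gcongr
      _ = 1 := h3
  have hkc : (k : ℝ) * β ^ (k - 1) * c ≤ ε / 8 := by
    have h1 : c * (8 * (k + 1)) ≤ ε := by
      rwa [le_div_iff₀ hk1] at hcε
    have h2 : (k : ℝ) * β ^ (k - 1) ≤ k := by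
      have hk0 : (0 : ℝ) ≤ k := Nat.cast_nonneg k
      calc (k : ℝ) * β ^ (k - 1) ≤ k * 1 := mul_le_mul_of_nonneg_left hβk1' hk0
        _ = k := mul_one _
    have h3 : (k : ℝ) * β ^ (k - 1) * c ≤ k * c := mul_le_mul_of_nonneg_right h2 hc.le
    have h4 : c * (8 * ((k : ℝ) + 1)) = 8 * (k * c) + 8 * c := by ring
    rw [h4] at h1
    linarith
  -- lower bound for the second term
  have hS : k * β ^ k * y * ((1 - ε / 8) * T) - ε / 8 * T ≤
      k * β ^ (k - 1) * ∑ a ∈ H, (rep (X 0) Y a : ℝ) / L := by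
    have h1 : (k : ℝ) * β ^ (k - 1) * (y * (β * ((1 - ε / 8) * T)) - c * T) ≤
        k * β ^ (k - 1) * ∑ a ∈ H, (rep (X 0) Y a : ℝ) / L :=
      mul_le_mul_of_nonneg_left hsum (by positivity)
    have h2 : (k : ℝ) * β ^ (k - 1) * (y * (β * ((1 - ε / 8) * T)) - c * T) =
        ((k : ℝ) * β ^ (k - 1) * β) * y * ((1 - ε / 8) * T) - ((k : ℝ) * β ^ (k - 1) * c) * T := by ring
    rw [h2, hB] at h1
    have h3 : ((k : ℝ) * β ^ (k - 1) * c) * T ≤ ε / 8 * T := mul_le_mul_of_nonneg_right hkc hTR.le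
    linarith
  have hF : (y + β) * β ^ k * T - 2 * (ε / 8) * T ≤ H.card * (β ^ k - ε / 8) := by
    have h1 : (y + β - ε / 8) * T * β ^ k ≤ H.card * β ^ k := mul_le_mul_of_nonneg_right hHc hβk0
    have h2 : H.card * (ε / 8) ≤ T * (ε / 8) := mul_le_mul_of_nonneg_right hHcT (by positivity)
    have h3 : ε / 8 * T * β ^ k ≤ ε / 8 * T * 1 := mul_le_mul_of_nonneg_left hβk1 (by positivity)
    have h4 : (y + β - ε / 8) * T * β ^ k = (y + β) * β ^ k * T - ε / 8 * T * β ^ k := by ring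
    rw [h4] at h1
    have h5 : (H.card : ℝ) * (β ^ k - ε / 8) = H.card * β ^ k - H.card * (ε / 8) := by ring
    rw [h5]
    linarith
  have hG : (k : ℝ) * β ^ k * y * T * (ε / 8) ≤ ε / 8 * T := by
    have h1 : (k : ℝ) * β ^ k * y ≤ 1 := by
      have h2 : (k : ℝ) * β ^ k * y ≤ 1 * y := mul_le_mul_of_nonneg_right hkβ hy0
      linarith
    have h3 : (k : ℝ) * β ^ k * y * (T * (ε / 8)) ≤ 1 * (T * (ε / 8)) :=
      mul_le_mul_of_nonneg_right h1 (by positivity)
    calc (k : ℝ) * β ^ k * y * T * (ε / 8) = (k : ℝ) * β ^ k * y * (T * (ε / 8)) := by ring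
      _ ≤ _ := h3
      _ = ε / 8 * T := by ring
  have hfin : (β ^ (k + 1) + ((k + 1 : ℕ) : ℝ) * β ^ (k + 1 - 1) * y - ε₀) * T ≤
      H.card * (β ^ k - ε / 8) + k * β ^ (k - 1) * ∑ a ∈ H, (rep (X 0) Y a : ℝ) / L := by
    rw [Nat.add_sub_cancel, pow_succ]
    push_cast
    have h1 : (β ^ k * β + (k + 1) * β ^ k * y - ε₀) * T ≤ (β ^ k * β + (k + 1) * β ^ k * y - ε) * T :=
      mul_le_mul_of_nonneg_right (by linarith) hTR.le
    refine h1.trans ?_
    have h2 : (β ^ k * β + (k + 1) * β ^ k * y - ε) * T =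
        (y + β) * β ^ k * T + k * β ^ k * y * T - ε * T := by ring
    rw [h2]
    have h3 : k * β ^ k * y * ((1 - ε / 8) * T) = k * β ^ k * y * T - k * β ^ k * y * T * (ε / 8) := by
      ring
    rw [h3] at hS
    have hεT : 0 ≤ ε * T := by positivity
    linarith
  calc (β ^ (k + 1) + ((k + 1 : ℕ) : ℝ) * β ^ (k + 1 - 1) * y - ε₀) * ((T : ℝ) ^ k * T)
      = ((β ^ (k + 1) + ((k + 1 : ℕ) : ℝ) * β ^ (k + 1 - 1) * y - ε₀) * T) * (T : ℝ) ^ k := by ring
    _ ≤ _ := mul_le_mul_of_nonneg_right hfin hTk.le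

theorem main (hK2 : Pool.Agent.N646.BX.S_K2) : ∀ k, Pool.Agent.N646.BX.S_KK k := by
  intro k
  induction k with
  | zero => exact zero
  | succ k ih => exact step hK2 k ih

end Pool.Agent.N519.BXKK
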