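import Pool.Agent.N906.KG.Grid

/-!
# KG/CXG: the grid complex (helper519)
-/

set_option autoImplicit false

namespace Pool.Agent.N519.KG

open Finset Pool.Agent.N906.KG
open Pool.Agent.N906.NT (Cx cst)

/-- the face of a pair -/
def fc (q r : ℕ) (p : Fin q × Fin r) : Finset (Fin (q + r)) :=
  {Fin.castAdd r p.1, Fin.natAdd q p.2}

lemma split {q r : ℕ} (s : Finset (Fin (q + r))) :
    (s.filter fun i : Fin (q + r) => (i : ℕ) < q).card +
      (s.filter fun i : Fin (q + r) => q ≤ (i : ℕ)).card = s.card := by
  have h := Finset.card_filter_add_card_filter_not (s := s) (fun i : Fin (q + r) => (i : ℕ) < q)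
  simp only [not_lt] at h
  exact h

lemma ne_cn {q r : ℕ} (i : Fin q) (j : Fin r) : Fin.castAdd r i ≠ Fin.natAdd q j := by
  intro h
  have := congrArg Fin.val h
  simp at this
  omega

lemma fc_lt (q r : ℕ) (p : Fin q × Fin r) :
    ((fc q r p).filter fun i : Fin (q + r) => (i : ℕ) < q) = {Fin.castAdd r p.1} := by
  ext x
  simp only [fc, mem_filter, mem_insert, mem_singleton]
  constructor
  · rintro ⟨rfl | rfl, h⟩
    · rfl
    · simp at h
  · rintro rfl
    exact ⟨Or.inl rfl, by simp⟩

lemma fc_ge (q r : ℕ) (p : Fin q × Fin r) :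
    ((fc q r p).filter fun i : Fin (q + r) => q ≤ (i : ℕ)) = {Fin.natAdd q p.2} := by
  ext x
  simp only [fc, mem_filter, mem_insert, mem_singleton]
  constructor
  · rintro ⟨rfl | rfl, h⟩
    · have := p.1.2
      simp at h
      omega
    · rfl
  · rintro rfl
    exact ⟨Or.inr rfl, by simp⟩

lemma fc_inj (q r : ℕ) : Function.Injective (fc q r) := by
  intro p p' h
  have h1 := fc_lt q r p
  have h2 := fc_ge q r p
  rw [h, fc_lt] at h1
  rw [h, fc_ge] at h2
  have e1 := Finset.singleton_injective h1
  have e2 := Finset.singleton_injective h2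
  exact Prod.ext (Fin.castAdd_injective q r e1).symm (Fin.natAdd_injective r q e2).symm

lemma faces (q r : ℕ) : ((Gc q r).filter fun s => s.card = 2) = univ.image (fc q r) := by
  ext s
  simp only [Gc, mem_filter, mem_univ, true_and, mem_image]
  constructor
  · rintro ⟨⟨h1, h2⟩, h3⟩
    have h4 := split s
    obtain ⟨a, ha⟩ := Finset.card_eq_one.1 (show (s.filter fun i : Fin (q + r) =>
      (i : ℕ) < q).card = 1 by omega)
    obtain ⟨b, hb⟩ := Finset.card_eq_one.1 (show (s.filter fun i : Fin (q + r) =>
      q ≤ (i : ℕ)).card = 1 by omega)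
    have ha' : (a : ℕ) < q := by
      have : a ∈ s.filter fun i : Fin (q + r) => (i : ℕ) < q := by
        rw [ha]; exact mem_singleton_self _
      exact (mem_filter.1 this).2
    have hb' : q ≤ (b : ℕ) := by
      have : b ∈ s.filter fun i : Fin (q + r) => q ≤ (i : ℕ) := by
        rw [hb]; exact mem_singleton_self _
      exact (mem_filter.1 this).2
    have hbr := b.2
    refine ⟨(⟨a, ha'⟩, ⟨b - q, by omega⟩), ?_⟩
    have e1 : Fin.castAdd r ⟨a, ha'⟩ = a := Fin.ext rfl
    have e2 : Fin.natAdd q (⟨(b : ℕ) - q, by omega⟩ : Fin r) = b := by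
      apply Fin.ext
      simp only [Fin.val_natAdd]
      omega
    unfold fc
    rw [e1, e2]
    ext x
    rw [mem_insert, mem_singleton]
    constructor
    · rintro (rfl | rfl)
      · have : x ∈ s.filter fun i : Fin (q + r) => (i : ℕ) < q := by
          rw [ha]; exact mem_singleton_self _
        exact (mem_filter.1 this).1
      · have : x ∈ s.filter fun i : Fin (q + r) => q ≤ (i : ℕ) := by
          rw [hb]; exact mem_singleton_self _
        exact (mem_filter.1 this).1
    · intro hx
      by_cases hxq : (x : ℕ) < q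
      · left
        have : x ∈ s.filter fun i : Fin (q + r) => (i : ℕ) < q := mem_filter.2 ⟨hx, hxq⟩
        rw [ha] at this
        exact mem_singleton.1 this
      · right
        have : x ∈ s.filter fun i : Fin (q + r) => q ≤ (i : ℕ) :=
          mem_filter.2 ⟨hx, not_lt.1 hxq⟩
        rw [hb] at this
        exact mem_singleton.1 this
  · rintro ⟨p, rfl⟩
    rw [fc_lt, fc_ge]
    refine ⟨⟨by simp, by simp⟩, ?_⟩
    unfold fc
    exact Finset.card_pair (ne_cn _ _)

/-- **CXG** -/
theorem cxg : S_CXG := by
  intro q r hq hr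
  refine ⟨by norm_num, Nat.mul_pos hq hr, ?_, ?_, ?_, ?_⟩
  · simp [Gc]
  · intro s hs s' hss
    simp only [Gc, mem_filter, mem_univ, true_and] at hs ⊢
    exact ⟨(Finset.card_le_card (Finset.filter_subset_filter _ hss)).trans hs.1,
      (Finset.card_le_card (Finset.filter_subset_filter _ hss)).trans hs.2⟩
  · intro s hs
    simp only [Gc, mem_filter, mem_univ, true_and] at hs
    have := split s
    omega
  · rw [faces, Finset.card_image_of_injective _ (fc_inj q r), Finset.card_univ,
      Fintype.card_prod, Fintype.card_fin, Fintype.card_fin]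

end Pool.Agent.N519.KG
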