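import Mathlib

/-!
# Idempotents in the group algebra of `C₂ ≀ G` separating an element of `ℚ[G]`

For a group `G` and `0 ≠ α ∈ ℚ[G]` there are `β, γ` in the rational group algebra of the wreath
product `C₂ ≀ G` with `γ ≠ 0` and `β α γ = γ`.
-/

namespace Pool.Agent.N519.WreathIdem

open MonoidAlgebra Finset

variable (G : Type) [Group G]

/-- The base group `⊕_G C₂`. -/
abbrev Base : Type := Multiplicative (G →₀ ZMod 2)

/-- The left translation action of `G` on `⊕_G C₂`. -/
noncomputable def shift : G →* MulAut (Base G) where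
  toFun h := AddEquiv.toMultiplicative (Finsupp.domCongr (Equiv.mulLeft h))
  map_one' := by
    refine MulEquiv.ext fun b => ?_
    apply Multiplicative.toAdd.injective
    refine Finsupp.ext fun g => ?_
    change (Multiplicative.toAdd b) ((1 : G)⁻¹ * g) = (Multiplicative.toAdd b) g
    rw [inv_one, one_mul]
  map_mul' a b := by
    refine MulEquiv.ext fun c => ?_
    apply Multiplicative.toAdd.injective
    refine Finsupp.ext fun g => ?_
    change (Multiplicative.toAdd c) ((a * b)⁻¹ * g) =
      (Multiplicative.toAdd c) (b⁻¹ * (a⁻¹ * g))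
    rw [mul_inv_rev, mul_assoc]

/-- The restricted wreath product `C₂ ≀ G`. -/
abbrev Wr : Type := Base G ⋊[shift G] G

variable {G}

/-- The generator of the copy of `C₂` at `g`. -/
noncomputable def sg (g : G) : Base G := Multiplicative.ofAdd (Finsupp.single g 1)

theorem sg_mul_self (g : G) : sg g * sg g = 1 := by
  rw [sg, ← ofAdd_add, ← Finsupp.single_add]
  rw [show (1 + 1 : ZMod 2) = 0 by decide, Finsupp.single_zero, ofAdd_zero]

theorem shift_sg (h g : G) : shift G h (sg g) = sg (h * g) := by
  apply Multiplicative.toAdd.injective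
  simp [shift, sg, Finsupp.domCongr]

/-- The idempotent `(1 + σ_g)/2`. -/
noncomputable def p (g : G) : MonoidAlgebra ℚ (Base G) := single 1 (1 / 2) + single (sg g) (1 / 2)

theorem p_mul_self (g : G) : p g * p g = p g := by
  simp only [p, mul_add, add_mul, single_mul_single, one_mul, mul_one, sg_mul_self]
  have h1 : (single (1 : Base G) (1 / 2 * (1 / 2) : ℚ)) + single 1 (1 / 2 * (1 / 2)) =
      single 1 (1 / 2) := by rw [← single_add]; norm_num
  have h2 : (single (sg g) (1 / 2 * (1 / 2) : ℚ)) + single (sg g) (1 / 2 * (1 / 2)) =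
      single (sg g) (1 / 2) := by rw [← single_add]; norm_num
  rw [← h1, ← h2]
  abel

theorem q_mul_self (g : G) : (1 - p g) * (1 - p g) = 1 - p g := by
  have := p_mul_self g
  linear_combination this

/-- The idempotent attached to the finite set `S`. -/
noncomputable def idem (S : Finset G) : MonoidAlgebra ℚ (Base G) := p 1 * ∏ s ∈ S, (1 - p s)

theorem idem_mul_self (S : Finset G) : idem S * idem S = idem S := by
  have h : (∏ s ∈ S, (1 - p s)) * (∏ s ∈ S, (1 - p s)) = ∏ s ∈ S, (1 - p s) := by
    rw [← Finset.prod_mul_distrib]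
    exact Finset.prod_congr rfl fun s _ => q_mul_self s
  calc idem S * idem S = (p 1 * p 1) * ((∏ s ∈ S, (1 - p s)) * (∏ s ∈ S, (1 - p s))) := by
        rw [idem]; ring
    _ = idem S := by rw [h, p_mul_self, idem]

/-- The automorphism of `ℚ[⊕ C₂]` induced by `h`. -/
noncomputable def Phi (h : G) : MonoidAlgebra ℚ (Base G) →+* MonoidAlgebra ℚ (Base G) :=
  mapDomainRingHom ℚ (shift G h).toMonoidHom

theorem Phi_single (h : G) (b : Base G) (r : ℚ) : Phi h (single b r) = single (shift G h b) r := by
  simp [Phi]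

theorem Phi_p (h g : G) : Phi h (p g) = p (h * g) := by
  rw [p, p, map_add, Phi_single, Phi_single, shift_sg, map_one]

theorem idem_mul_Phi (S : Finset G) {h : G} (hS : h ∈ S) : idem S * Phi h (idem S) = 0 := by
  classical
  have h1 : idem S = (p 1 * ∏ s ∈ S.erase h, (1 - p s)) * (1 - p h) := by
    rw [idem, ← Finset.mul_prod_erase S _ hS]; ring
  have h2 : Phi h (idem S) = p h * Phi h (∏ s ∈ S, (1 - p s)) := by
    rw [idem, map_mul, Phi_p, mul_one]
  have h3 : (1 - p h) * p h = 0 := by
    have := p_mul_self h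
    linear_combination -this
  rw [h2]
  nth_rewrite 1 [h1]
  calc (p 1 * ∏ s ∈ S.erase h, (1 - p s)) * (1 - p h) * (p h * Phi h (∏ s ∈ S, (1 - p s)))
      = (p 1 * ∏ s ∈ S.erase h, (1 - p s)) * ((1 - p h) * p h) * Phi h (∏ s ∈ S, (1 - p s)) := by
        ring
    _ = 0 := by rw [h3, mul_zero, zero_mul]

/-- The sign character `b ↦ ∏_{s ∈ S} (-1)^{b s}`. -/
noncomputable def chi (S : Finset G) : Base G →* ℚ where
  toFun b := ∏ s ∈ S, (if (Multiplicative.toAdd b) s = 0 then (1 : ℚ) else -1)
  map_one' := by simp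
  map_mul' a b := by
    rw [← Finset.prod_mul_distrib]
    refine Finset.prod_congr rfl fun s _ => ?_
    have key : ∀ x y : ZMod 2, (if x + y = 0 then (1 : ℚ) else -1) =
        (if x = 0 then (1 : ℚ) else -1) * (if y = 0 then (1 : ℚ) else -1) := by
      intro x y
      fin_cases x <;> fin_cases y <;> simp
      all_goals try decide
    exact key _ _

theorem chi_sg_not_mem (S : Finset G) {g : G} (hg : g ∉ S) : chi S (sg g) = 1 := by
  refine Finset.prod_eq_one fun s hs => ?_
  have : g ≠ s := fun h => hg (h ▸ hs)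
  simp [sg, Finsupp.single_apply, this]

theorem chi_sg_mem (S : Finset G) {g : G} (hg : g ∈ S) : chi S (sg g) = -1 := by
  change ∏ s ∈ S, (if (Multiplicative.toAdd (sg g)) s = 0 then (1 : ℚ) else -1) = -1
  rw [Finset.prod_eq_single g]
  · simp [sg]
  · intro s _ hs
    simp [sg, Finsupp.single_apply, Ne.symm hs]
  · intro h; exact absurd hg h

/-- The extension of the character to the group algebra. -/
noncomputable def ev (S : Finset G) : MonoidAlgebra ℚ (Base G) →ₐ[ℚ] ℚ := MonoidAlgebra.lift ℚ ℚ (Base G) (chi S)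

theorem ev_p (S : Finset G) (g : G) : ev S (p g) = 1 / 2 + 1 / 2 * chi S (sg g) := by
  simp [ev, p]

theorem ev_idem (S : Finset G) (h1 : (1 : G) ∉ S) : ev S (idem S) = 1 := by
  rw [idem, map_mul, map_prod, ev_p, chi_sg_not_mem S h1]
  have : ∏ s ∈ S, ev S (1 - p s) = 1 := by
    refine Finset.prod_eq_one fun s hs => ?_
    rw [map_sub, map_one, ev_p, chi_sg_mem S hs]
    norm_num
  rw [this]
  norm_num

theorem idem_ne_zero (S : Finset G) (h1 : (1 : G) ∉ S) : idem S ≠ 0 := by
  intro h
  have := ev_idem S h1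
  rw [h, map_zero] at this
  exact zero_ne_one this

/-- Inclusion of the group algebra of the base group. -/
noncomputable def J : MonoidAlgebra ℚ (Base G) →+* MonoidAlgebra ℚ (Wr G) :=
  mapDomainRingHom ℚ SemidirectProduct.inl

theorem J_injective : Function.Injective (J (G := G)) :=
  mapDomain_injective SemidirectProduct.inl_injective

/-- Inclusion of the group algebra of `G`. -/
noncomputable def I : MonoidAlgebra ℚ G →+* MonoidAlgebra ℚ (Wr G) :=
  mapDomainRingHom ℚ SemidirectProduct.inr

theorem comm (h : G) (x : MonoidAlgebra ℚ (Base G)) :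
    single (SemidirectProduct.inr h : Wr G) 1 * J x = J (Phi h x) * single (SemidirectProduct.inr h) 1 := by
  induction x using MonoidAlgebra.induction_linear with
  | zero => simp
  | add x y hx hy => rw [map_add, map_add, map_add, mul_add, add_mul, hx, hy]
  | single b r =>
    rw [Phi_single]
    simp only [J, mapDomainRingHom_apply, mapDomain_single, single_mul_single, one_mul, mul_one]
    congr 1
    rw [SemidirectProduct.inl_aut, map_inv, inv_mul_cancel_right]

theorem main (S : Finset G) (α : MonoidAlgebra ℚ G) (h1 : (1 : G) ∉ S)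
    (hS : ∀ g ∈ α.coeff.support, g ≠ 1 → g ∈ S) :
    J (idem S) * I α * J (idem S) = (α.coeff 1) • J (idem S) := by
  classical
  have hα : I α = ∑ g ∈ α.coeff.support, (α.coeff g) • single (SemidirectProduct.inr g : Wr G) 1 := by
    conv_lhs => rw [← sum_coeff_single α]
    rw [Finsupp.sum, map_sum]
    refine Finset.sum_congr rfl fun g _ => ?_
    simp [I]
  rw [hα, Finset.mul_sum, Finset.sum_mul]
  have key : ∀ g ∈ α.coeff.support, J (idem S) * (α.coeff g) •
      single (SemidirectProduct.inr g : Wr G) 1 * J (idem S) =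
      if g = 1 then (α.coeff 1) • J (idem S) else 0 := by
    intro g hg
    rw [mul_smul_comm, smul_mul_assoc, mul_assoc, comm, ← mul_assoc, ← map_mul]
    by_cases h : g = 1
    · subst h
      have hP : Phi 1 (idem S) = idem S := by
        have : Phi (G := G) 1 = RingHom.id _ := by
          rw [Phi, map_one]
          exact mapDomainRingHom_id
        rw [this, RingHom.id_apply]
      have h1' : (single (SemidirectProduct.inr (1 : G) : Wr G) (1 : ℚ)) = 1 := by
        rw [SemidirectProduct.inr.map_one]; rfl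
      rw [if_pos rfl, hP, idem_mul_self, h1', mul_one]
    · rw [if_neg h, idem_mul_Phi S (hS g hg h), map_zero, zero_mul, smul_zero]
  rw [Finset.sum_congr rfl key, Finset.sum_ite_eq']
  split_ifs with h
  · rfl
  · rw [Finsupp.notMem_support_iff.1 h, zero_smul]

/-- The main algebraic fact. -/
theorem exists_beta_gamma (α : MonoidAlgebra ℚ G) (hα : α ≠ 0) :
    ∃ β γ : MonoidAlgebra ℚ (Wr G), γ ≠ 0 ∧ β * I α * γ = γ := by
  classical
  obtain ⟨g0, hg0⟩ : ∃ g0, α.coeff g0 ≠ 0 := by
    by_contra h
    push Not at h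
    exact hα (by ext g; exact h g)
  set α' : MonoidAlgebra ℚ G := single g0⁻¹ 1 * α with hα'
  have h1 : α'.coeff 1 = α.coeff g0 := by
    rw [hα', coeff_single_mul_apply]
    simp
  set S := α'.coeff.support.erase 1 with hS
  have h2 := main S α' (by simp [hS]) (by intro g hg hg1; rw [hS]; exact Finset.mem_erase.2 ⟨hg1, hg⟩)
  refine ⟨(α.coeff g0)⁻¹ • (J (idem S) * I (single g0⁻¹ 1)), J (idem S), ?_, ?_⟩
  · intro h
    rw [← map_zero J] at h
    exact idem_ne_zero S (by simp [hS]) (J_injective h)
  · rw [smul_mul_assoc, mul_assoc (J (idem S)), ← map_mul, ← hα', smul_mul_assoc, h2, h1, smul_smul,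
      inv_mul_cancel₀ hg0, one_smul]

end Pool.Agent.N519.WreathIdem
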