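import Mathlib

set_option autoImplicit false

/-!
# The Zariski topology of a product of finite centreless groups

For `G = ∏ S₃` (countably many copies) the Zariski topology is the product topology.
-/

namespace Pool.Agent.N519.ZariskiProd

/-- The symmetric group of degree three. -/
abbrev F : Type := Equiv.Perm (Fin 3)

/-- The product of countably many copies of the symmetric group of degree three. -/
abbrev G : Type := ℕ → F

instance topF : TopologicalSpace F := ⊥

instance discF : DiscreteTopology F := ⟨rfl⟩

instance tgF : IsTopologicalGroup F where
  continuous_mul := continuous_of_discreteTopology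
  continuous_inv := continuous_of_discreteTopology

instance infG : Infinite G := inferInstance

instance compG : CompactSpace G := inferInstance

instance t2G : T2Space G := inferInstance

/-- If all the generating closed sets are closed in the product topology and all the sets
`{x | x i = a ∨ ...}` cut out by commutation in one coordinate are among them, then the topology
they generate is the product topology. -/
theorem generate_eq (C : Set (Set G))
    (hC : ∀ U ∈ C, IsOpen U)
    (hg : ∀ (i : ℕ) (a g : F), {x : G | x i * a⁻¹ * g * (x i * a⁻¹)⁻¹ * g⁻¹ = 1}ᶜ ∈ C) :
    (Pi.topologicalSpace : TopologicalSpace G) = TopologicalSpace.generateFrom C := by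
  apply le_antisymm
  · exact le_generateFrom hC
  · have hcl : ∀ (i : ℕ) (a : F),
        @IsClosed G (TopologicalSpace.generateFrom C) {x : G | x i = a} := by
      intro i a
      have e : {x : G | x i = a} =
          ⋂ g : F, {x : G | x i * a⁻¹ * g * (x i * a⁻¹)⁻¹ * g⁻¹ = 1} := by
        ext x
        simp only [Set.mem_ofPred_eq, Set.mem_iInter]
        constructor
        · intro h g
          rw [h]; group
        · intro h
          have hc : ∀ b : F, (∀ g : F, b * g * b⁻¹ * g⁻¹ = 1) → b = 1 := by decide
          have := hc (x i * a⁻¹) h
          exact mul_inv_eq_one.1 this
      rw [e]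
      refine @isClosed_iInter _ _ (TopologicalSpace.generateFrom C) _ fun g => ?_
      refine @IsClosed.mk _ (TopologicalSpace.generateFrom C) _ ?_
      exact TopologicalSpace.isOpen_generateFrom_of_mem (hg i a g)
    have hop : ∀ (i : ℕ) (a : F),
        @IsOpen G (TopologicalSpace.generateFrom C) {x : G | x i = a} := by
      intro i a
      have e : {x : G | x i = a} = (⋃ b ∈ (Set.univ \ {a} : Set F), {x : G | x i = b})ᶜ := by
        ext x
        simp only [Set.mem_sdiff, Set.mem_univ, Set.mem_singleton_iff, true_and, Set.mem_compl_iff,
          Set.mem_iUnion, not_exists]
        constructor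
        · intro h b hb h'
          exact hb (h'.symm.trans h)
        · intro h
          by_contra hne
          exact h (x i) hne rfl
      rw [e]
      refine @IsClosed.isOpen_compl _ (TopologicalSpace.generateFrom C) _ ?_
      exact @Set.Finite.isClosed_biUnion _ _ (TopologicalSpace.generateFrom C) _ _
        (Set.toFinite _) fun b _ => hcl i b
    have hcont : @Continuous G G (TopologicalSpace.generateFrom C) Pi.topologicalSpace id := by
      refine @continuous_pi _ _ _ (TopologicalSpace.generateFrom C) _ _ fun i => ?_
      rw [@continuous_discrete_rng _ _ (TopologicalSpace.generateFrom C) _ _]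
      intro b
      exact hop i b
    exact continuous_id_iff_le.1 hcont

/-- Not Noetherian: an infinite compact Hausdorff space. -/
theorem not_noetherian : ¬ TopologicalSpace.NoetherianSpace G := by
  intro h
  have : Finite G := by
    exact TopologicalSpace.NoetherianSpace.finite
  exact not_finite G

end Pool.Agent.N519.ZariskiProd
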